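import Pool.Agent.H542.PC.P9

/-!
# The Liouville function at the values of `(a (f + t) + b) (c (f + t) + d)`, for all polynomials `f` and almost all `t`

From the starting files: the two point theorem at almost all scales for all additive twists
(`Pool.Agent.Helper896.TW.key_pairs`), Davenport's theorem, the moments of Weyl sums (`Pool.Agent.H373R2`). New: the
deduction of the estimates below.
-/

set_option autoImplicit false

namespace Pool.Agent.Results.MP_892e4c_nt.TwoTranslates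

open Finset Filter Topology Polynomial

open Classical in
/-- Logarithmic density zero. -/
def LogDensityZero (E : Set ℕ) : Prop :=
  Tendsto (fun X : ℕ => (∑ n ∈ Icc 1 X, if n ∈ E then (1 : ℝ) / n else 0) / Real.log X) atTop (𝓝 0)

/-- The Liouville function at the integers `n ≥ 1`. -/
def lam (n : ℤ) : ℤ := (-1) ^ ArithmeticFunction.cardFactors n.toNat

/-- `λ(a n + b) λ(c n + d)` for `n ≥ 1`, and `0` for `n ≤ 0`. -/
noncomputable def pair (a b c d : ℕ) (n : ℤ) : ℂ :=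
  if 1 ≤ n then ((lam (a * n + b) * lam (c * n + d) : ℤ) : ℂ) else 0

/-- The integer `n ≥ 1` has the sign pattern `λ(a n + b) = σ`, `λ(c n + d) = τ`. -/
def Pattern (a b c d : ℕ) (σ τ : ℤ) (n : ℤ) : Prop := 1 ≤ n ∧ lam (a * n + b) = σ ∧ lam (c * n + d) = τ

/-- The number of the pairs `u, v` of sequences of `h` indices with
`s (u 1) + ... + s (u h) = s (v 1) + ... + s (v h)`. -/
noncomputable def relations {R : ℕ} (s : Fin R → ℤ) (h : ℕ) : ℕ :=
  Fintype.card {p : (Fin h → Fin R) × (Fin h → Fin R) // ∑ j, s (p.1 j) = ∑ j, s (p.2 j)}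

open Classical in
/-- There are a set `𝓔` of scales and a set `𝓑` of translates, both of logarithmic density zero, such that for all pairs
of non-proportional linear forms `a n + b`, `c n + d` (`a, c ≥ 1`, `b, d ≥ 0`) the following holds.

(1) Thin families. Let `h`, `K`, `ε > 0` be fixed and let `N ∉ 𝓔` be large. For all families `s_1, ..., s_R` of integers
with `|s_i| ≤ K N` and at most `K R ^ (2 h) / N` additive relations of order `h`, and all complex weights `|w_i| ≤ 1`,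
`∑_{t ≤ N} |∑_i w_i λ(a (t + s_i) + b) λ(c (t + s_i) + d)| ^ 2 ≤ ε N R ^ 2`.

(2) Product sets. Let `f` be a nonconstant integer polynomial of degree `k`, `K` and `ε > 0` be fixed, let `N ∉ 𝓔` be
large and `N ≤ x ^ k ≤ K N`. For ARBITRARY sets `A ⊆ [1, N]`, `B ⊆ [1, x]`, each of the four sign patterns
`λ(a n + b) = σ`, `λ(c n + d) = τ` is taken at `n = t + f(m)` for one quarter of the pairs `(t, m)` of `A × B` with
`t + f(m) ≥ 1`, up to an error of at most `ε N x`.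

(3) Individual translates. Let `f`, `k`, `K`, `ε` be as in (2). For all large `t ∉ 𝓑` and ALL `x` with `x ^ k ≤ K t`,
each of the four sign patterns is taken at `n = t + f(m)` for one quarter of the `m ≤ x` with `t + f(m) ≥ 1`, up to an
error of at most `(ε t) ^ (1 / k)`. In particular Chowla's conjecture holds, in this range, for the polynomial
`(a (f + t) + b) (c (f + t) + d)` of degree `2 k`. -/
theorem result : ∃ 𝓔 𝓑 : Set ℕ, LogDensityZero 𝓔 ∧ LogDensityZero 𝓑 ∧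
    ∀ a b c d : ℕ, 1 ≤ a → 1 ≤ c → a * d ≠ c * b →
    (∀ (h K : ℕ) (ε : ℝ), 0 < ε → ∃ N₀ : ℕ, ∀ N : ℕ, N₀ ≤ N → N ∉ 𝓔 →
      ∀ (R : ℕ) (s : Fin R → ℤ) (w : Fin R → ℂ), (∀ i, |s i| ≤ K * N) → (∀ i, ‖w i‖ ≤ 1) →
        N * (relations s h : ℝ) ≤ K * (R : ℝ) ^ (2 * h) →
        ∑ t ∈ Icc 1 N, ‖∑ i, w i * pair a b c d (t + s i)‖ ^ 2 ≤ ε * N * (R : ℝ) ^ 2) ∧
    (∀ f : ℤ[X], 1 ≤ f.natDegree → ∀ (K : ℕ) (ε : ℝ), 0 < ε → ∃ N₀ : ℕ, ∀ N : ℕ, N₀ ≤ N → N ∉ 𝓔 →
      ∀ x : ℕ, N ≤ x ^ f.natDegree → x ^ f.natDegree ≤ K * N → ∀ A B : Finset ℕ, A ⊆ Icc 1 N → B ⊆ Icc 1 x →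
        ∀ σ τ : ℤ, (σ = 1 ∨ σ = -1) → (τ = 1 ∨ τ = -1) →
        |(#((A ×ˢ B).filter fun p => Pattern a b c d σ τ (p.1 + f.eval (p.2 : ℤ))) : ℝ) -
          (#((A ×ˢ B).filter fun p => 1 ≤ (p.1 : ℤ) + f.eval (p.2 : ℤ)) : ℝ) / 4| ≤ ε * N * x) ∧
    (∀ f : ℤ[X], 1 ≤ f.natDegree → ∀ (K : ℕ) (ε : ℝ), 0 < ε → ∃ t₀ : ℕ, ∀ t : ℕ, t₀ ≤ t → t ∉ 𝓑 →
      ∀ x : ℕ, x ^ f.natDegree ≤ K * t → ∀ σ τ : ℤ, (σ = 1 ∨ σ = -1) → (τ = 1 ∨ τ = -1) →
        |(#((Icc 1 x).filter fun m : ℕ => Pattern a b c d σ τ (t + f.eval (m : ℤ))) : ℝ) -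
          (#((Icc 1 x).filter fun m : ℕ => 1 ≤ (t : ℤ) + f.eval (m : ℤ)) : ℝ) / 4| ^ f.natDegree ≤ ε * t) := by
  obtain ⟨E, B, hE, hB, h⟩ := Pool.Agent.H542.PC.main
  have hlam : ∀ (a b : ℕ) (n : ℤ), 1 ≤ n → lam (a * n + b) = Pool.Agent.Helper896.MA.lm (a * n.toNat + b) := by
    intro a b n hn
    unfold lam Pool.Agent.Helper896.MA.lm
    have e : ((a : ℤ) * n + b).toNat = a * n.toNat + b := by
      obtain ⟨k, rfl⟩ := Int.eq_ofNat_of_zero_le (by omega : 0 ≤ n)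
      simp only [Int.toNat_natCast]
      exact_mod_cast Int.toNat_natCast (a * k + b)
    rw [e]
  have hpair : ∀ a b c d : ℕ, pair a b c d = Pool.Agent.H542.PC.F2 a b c d := by
    intro a b c d
    funext n
    unfold pair Pool.Agent.H542.PC.F2
    split_ifs with hn
    · rw [hlam a b n hn, hlam c d n hn]
    · rfl
  have hpat : ∀ (a b c d : ℕ) (σ τ n : ℤ), Pattern a b c d σ τ n ↔ Pool.Agent.H542.PC.Pat a b c d σ τ n := by
    intro a b c d σ τ n
    unfold Pattern Pool.Agent.H542.PC.Pat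
    constructor
    · rintro ⟨h1, h2, h3⟩
      rw [hlam a b n h1] at h2
      rw [hlam c d n h1] at h3
      exact ⟨h1, h2, h3⟩
    · rintro ⟨h1, h2, h3⟩
      rw [← hlam a b n h1] at h2
      rw [← hlam c d n h1] at h3
      exact ⟨h1, h2, h3⟩
  have hrel : ∀ {R : ℕ} (s : Fin R → ℤ) (h : ℕ), relations s h = Pool.Agent.H542.PC.en univ s h := by
    intro R s h
    unfold relations Pool.Agent.H542.PC.en
    rw [Fintype.card_subtype]
    congr 1
    ext p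
    simp
  refine ⟨E, B, hE, hB, fun a b c d ha hc hne => ?_⟩
  obtain ⟨h1, h2, h3⟩ := h a b c d ha hc hne
  refine ⟨?_, ?_, ?_⟩
  · intro h K ε hε
    obtain ⟨N₀, hN₀⟩ := h1 h K ε hε
    refine ⟨N₀, fun N hN hNE R s w hs hw hr => ?_⟩
    rw [hpair]
    rw [hrel] at hr
    exact hN₀ N hN hNE R s w hs hw hr
  · intro f hf K ε hε
    obtain ⟨N₀, hN₀⟩ := h2 f hf K ε hε
    refine ⟨N₀, fun N hN hNE x hx1 hx2 A B hA hB σ τ hσ hτ => ?_⟩
    simp only [hpat]
    exact hN₀ N hN hNE x hx1 hx2 A B hA hB σ τ hσ hτ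
  · intro f hf K ε hε
    obtain ⟨t₀, ht₀⟩ := h3 f hf K ε hε
    refine ⟨t₀, fun t ht htB x hx σ τ hσ hτ => ?_⟩
    simp only [hpat]
    exact ht₀ t ht htB x hx σ τ hσ hτ

end Pool.Agent.Results.MP_892e4c_nt.TwoTranslates
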